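import Pool.Agent.W854.HW.Stmts

/-!
# Howitt-Warren flows: binomial identity and bounds of the drifts (BIN, BOUNDS)
-/

set_option autoImplicit false

namespace Pool.Agent.W540.HW

open MeasureTheory Pool.Agent.W854.HW
open scoped ENNReal

lemma meas1 : Measurable fun q : ℝ => (ENNReal.ofReal q)⁻¹ := ENNReal.measurable_ofReal.inv

lemma meas2 : Measurable fun q : ℝ => (ENNReal.ofReal (1 - q))⁻¹ :=
  (ENNReal.measurable_ofReal.comp (measurable_const.sub measurable_id)).inv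

lemma speed_eq (ν : Measure ℝ) : speed ν =
    2 * ∫⁻ q, (ENNReal.ofReal q)⁻¹ ∂ν + 2 * ∫⁻ q, (ENNReal.ofReal (1 - q))⁻¹ ∂ν := by
  unfold speed
  rw [lintegral_add_left meas1, mul_add]

lemma fin1 {ν : Measure ℝ} (h : speed ν ≠ ⊤) : ∫⁻ q, (ENNReal.ofReal q)⁻¹ ∂ν ≠ ⊤ := by
  intro h'
  apply h
  rw [speed_eq, h']
  simp

lemma fin2 {ν : Measure ℝ} (h : speed ν ≠ ⊤) : ∫⁻ q, (ENNReal.ofReal (1 - q))⁻¹ ∂ν ≠ ⊤ := by
  intro h'
  apply h
  rw [speed_eq, h']
  simp

lemma ae_mem {ν : Measure ℝ} (h : speed ν ≠ ⊤) : ∀ᵐ q ∂ν, 0 < q ∧ q < 1 := by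
  filter_upwards [ae_lt_top meas1 (fin1 h), ae_lt_top meas2 (fin2 h)] with q h1 h2
  constructor
  · by_contra hq
    push Not at hq
    rw [ENNReal.ofReal_of_nonpos hq] at h1
    simp at h1
  · by_contra hq
    push Not at hq
    rw [ENNReal.ofReal_of_nonpos (by linarith)] at h2
    simp at h2

lemma finite {ν : Measure ℝ} (h : speed ν ≠ ⊤) : IsFiniteMeasure ν := by
  refine ⟨lt_of_le_of_lt ?_ (lt_top_iff_ne_top.2 (fin1 h))⟩
  calc ν Set.univ = ∫⁻ _, 1 ∂ν := by simp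
    _ ≤ _ := by
      refine lintegral_mono_ae ?_
      filter_upwards [ae_mem h] with q hq
      rw [ENNReal.one_le_inv]
      rw [← ENNReal.ofReal_one]
      exact ENNReal.ofReal_le_ofReal hq.2.le

lemma int_le {ν : Measure ℝ} (r : ℝ → ℝ) (hr : ∀ᵐ q ∂ν, 0 < r q)
    (hf : ∫⁻ q, (ENNReal.ofReal (r q))⁻¹ ∂ν ≠ ⊤) (f : ℝ → ℝ) (hfc : Continuous f)
    (h0 : ∀ᵐ q ∂ν, 0 ≤ f q ∧ f q * r q ≤ 1) :
    0 ≤ ∫ q, f q ∂ν ∧ ∫ q, f q ∂ν ≤ (∫⁻ q, (ENNReal.ofReal (r q))⁻¹ ∂ν).toReal := by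
  have hn : 0 ≤ᵐ[ν] f := by
    filter_upwards [h0] with q hq
    exact hq.1
  refine ⟨integral_nonneg_of_ae hn, ?_⟩
  rw [integral_eq_lintegral_of_nonneg_ae hn hfc.aestronglyMeasurable]
  refine ENNReal.toReal_mono hf (lintegral_mono_ae ?_)
  filter_upwards [h0, hr] with q hq hq2
  rw [← ENNReal.ofReal_inv_of_pos hq2]
  apply ENNReal.ofReal_le_ofReal
  rw [← one_div, le_div_iff₀ hq2]
  exact hq.2

lemma geom_mul (x : ℝ) (n : ℕ) : (∑ k ∈ Finset.range n, x ^ k) * (1 - x) = 1 - x ^ n := by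
  have := geom_sum_mul x n
  linarith

lemma geom_bd {x : ℝ} (h0 : 0 < x) (h1 : x < 1) (n : ℕ) :
    0 ≤ ∑ k ∈ Finset.range n, x ^ k ∧ (∑ k ∈ Finset.range n, x ^ k) * (1 - x) ≤ 1 := by
  refine ⟨Finset.sum_nonneg fun k _ => by positivity, ?_⟩
  rw [geom_mul]
  have : 0 ≤ x ^ n := by positivity
  linarith

theorem bounds : S_BOUNDS := by
  intro ν h
  have h1 := fin1 h
  have h2 := fin2 h
  have hae := ae_mem h
  refine ⟨?_, ?_, ?_⟩
  · unfold speedR speedL
    rw [speed_eq, ENNReal.toReal_add (ENNReal.mul_ne_top (by norm_num) h1)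
      (ENNReal.mul_ne_top (by norm_num) h2)]
  · intro β m
    have h3 := int_le (ν := ν) (fun q => q) (by filter_upwards [hae] with q hq using hq.1) h1
      (fun q => ∑ k ∈ Finset.range (m - 1), (1 - q) ^ k) (by fun_prop) (by
        filter_upwards [hae] with q hq
        have := geom_bd (x := 1 - q) (by linarith [hq.2]) (by linarith [hq.1]) (m - 1)
        refine ⟨this.1, ?_⟩
        have h4 := this.2
        rw [sub_sub_cancel] at h4
        exact h4)
    unfold betaPlus speedR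
    rw [ENNReal.toReal_mul]
    simp only [ENNReal.toReal_ofNat]
    constructor
    · linarith [h3.1]
    · linarith [h3.2]
  · intro β m
    have h3 := int_le (ν := ν) (fun q => 1 - q)
      (by filter_upwards [hae] with q hq using by linarith [hq.2]) h2
      (fun q => ∑ k ∈ Finset.range (m - 1), q ^ k) (by fun_prop) (by
        filter_upwards [hae] with q hq
        exact geom_bd hq.1 hq.2 (m - 1))
    unfold speedL
    rw [ENNReal.toReal_mul]
    simp only [ENNReal.toReal_ofNat]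
    constructor
    · linarith [h3.2]
    · linarith [h3.1]

lemma alt_sum (m : ℕ) (r : ℝ) :
    ∑ k ∈ Finset.Icc 1 m, (-1 : ℝ) ^ (k + 1) * (m.choose k) * r ^ k = 1 - (1 - r) ^ m := by
  have h1 : (1 - r) ^ m = ∑ k ∈ Finset.range (m + 1), (-r) ^ k * (m.choose k) := by
    have := add_pow (-r) 1 m
    simp only [one_pow, mul_one] at this
    rw [← this]
    ring
  have h2 : Finset.range (m + 1) = insert 0 (Finset.Icc 1 m) := by
    ext k
    simp only [Finset.mem_range, Finset.mem_insert, Finset.mem_Icc]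
    omega
  rw [h1, h2, Finset.sum_insert (by simp)]
  simp only [pow_zero, Nat.choose_zero_right, Nat.cast_one, mul_one, one_mul]
  have h3 : ∑ k ∈ Finset.Icc 1 m, (-1 : ℝ) ^ (k + 1) * (m.choose k) * r ^ k =
      -∑ k ∈ Finset.Icc 1 m, (-r) ^ k * (m.choose k) := by
    rw [← Finset.sum_neg_distrib]
    refine Finset.sum_congr rfl fun k _ => ?_
    rw [neg_pow r k, pow_succ]
    ring
  rw [h3]
  ring

lemma alt_one {m : ℕ} (hm : 1 ≤ m) :
    ∑ k ∈ Finset.Icc 1 m, (-1 : ℝ) ^ (k + 1) * (m.choose k) = 1 := by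
  have := alt_sum m 1
  simp only [one_pow, mul_one, sub_self] at this
  rw [this, zero_pow (by omega), sub_zero]

lemma poly_id {m : ℕ} (hm : 1 ≤ m) {q : ℝ} (h0 : 0 < q) (h1 : q < 1) :
    ∑ k ∈ Finset.Icc 1 m, (-1 : ℝ) ^ (k + 1) * (m.choose k) *
      ∑ l ∈ Finset.range (k - 1), (1 - q) ^ l = -∑ l ∈ Finset.range (m - 1), q ^ l := by
  have hq : q ≠ 0 := h0.ne'
  have hr : 1 - q ≠ 0 := by linarith
  have h2 : (∑ k ∈ Finset.Icc 1 m, (-1 : ℝ) ^ (k + 1) * (m.choose k) *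
      ∑ l ∈ Finset.range (k - 1), (1 - q) ^ l) * (q * (1 - q)) = q ^ m - q := by
    rw [Finset.sum_mul]
    have h3 : ∀ k ∈ Finset.Icc 1 m, (-1 : ℝ) ^ (k + 1) * (m.choose k) *
        (∑ l ∈ Finset.range (k - 1), (1 - q) ^ l) * (q * (1 - q)) =
        (1 - q) * ((-1 : ℝ) ^ (k + 1) * (m.choose k)) -
          (-1 : ℝ) ^ (k + 1) * (m.choose k) * (1 - q) ^ k := by
      intro k hk
      rw [Finset.mem_Icc] at hk
      have h4 := geom_mul (1 - q) (k - 1)
      rw [sub_sub_cancel] at h4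
      have h5 : (1 - q) ^ k = (1 - q) ^ (k - 1) * (1 - q) := by
        rw [← pow_succ]
        congr 1
        omega
      calc (-1 : ℝ) ^ (k + 1) * (m.choose k) *
          (∑ l ∈ Finset.range (k - 1), (1 - q) ^ l) * (q * (1 - q)) =
          (-1 : ℝ) ^ (k + 1) * (m.choose k) * (1 - q) *
            ((∑ l ∈ Finset.range (k - 1), (1 - q) ^ l) * q) := by ring
        _ = _ := by rw [h4, h5]; ring
    rw [Finset.sum_congr rfl h3, Finset.sum_sub_distrib, ← Finset.mul_sum, alt_one hm, alt_sum]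
    ring
  have h6 : (-∑ l ∈ Finset.range (m - 1), q ^ l) * (q * (1 - q)) = q ^ m - q := by
    have h7 := geom_mul q (m - 1)
    have h8 : q ^ m = q ^ (m - 1) * q := by
      rw [← pow_succ]
      congr 1
      omega
    calc (-∑ l ∈ Finset.range (m - 1), q ^ l) * (q * (1 - q)) =
        -(((∑ l ∈ Finset.range (m - 1), q ^ l) * (1 - q)) * q) := by ring
      _ = _ := by rw [h7, h8]; ring
  exact mul_right_cancel₀ (mul_ne_zero hq hr) (h2.trans h6.symm)

theorem bin : S_BIN := by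
  intro β ν h m hm
  have hae := ae_mem h
  have hfin := finite h
  have hint : ∀ k : ℕ, Integrable (fun q : ℝ => ∑ l ∈ Finset.range k, (1 - q) ^ l) ν := by
    intro k
    refine integrable_finset_sum _ fun l _ => ?_
    refine Integrable.of_bound (by fun_prop) 1 ?_
    filter_upwards [hae] with q hq
    rw [Real.norm_eq_abs, abs_pow]
    refine pow_le_one₀ (abs_nonneg _) ?_
    rw [abs_le]
    constructor <;> linarith [hq.1, hq.2]
  have h1 : ∀ k ∈ Finset.Icc 1 m, (-1 : ℝ) ^ (k + 1) * (m.choose k) * betaPlus β ν k =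
      β * ((-1 : ℝ) ^ (k + 1) * (m.choose k)) + 2 * ∫ q, (-1 : ℝ) ^ (k + 1) * (m.choose k) *
        ∑ l ∈ Finset.range (k - 1), (1 - q) ^ l ∂ν := by
    intro k _
    unfold betaPlus
    rw [integral_const_mul]
    ring
  rw [Finset.sum_congr rfl h1, Finset.sum_add_distrib, ← Finset.mul_sum, alt_one hm,
    ← Finset.mul_sum, ← integral_finset_sum _ fun k _ => (hint (k - 1)).const_mul _]
  have h2 : ∫ q, ∑ k ∈ Finset.Icc 1 m, (-1 : ℝ) ^ (k + 1) * (m.choose k) *
      ∑ l ∈ Finset.range (k - 1), (1 - q) ^ l ∂ν =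
      -∫ q, ∑ l ∈ Finset.range (m - 1), q ^ l ∂ν := by
    rw [← integral_neg]
    refine integral_congr_ae ?_
    filter_upwards [hae] with q hq
    exact poly_id hm hq.1 hq.2
  rw [h2]
  ring

end Pool.Agent.W540.HW
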